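import Mathlib
import Pool.Agent.R710.Doi.Hopf

/-!
# Doi cocycle deformations need not be deformations via matched pairs
-/

set_option autoImplicit false

open scoped TensorProduct

universe u v w

namespace Pool.Agent.Results.MP_16410b_al.NotDeformation

section cocycle

variable (k : Type u) [Field k] (H : Type v) [Ring H] [HopfAlgebra k H]

/-- The convolution product `(σ * τ) (h ⊗ g) = σ(h₁ ⊗ g₁) τ(h₂ ⊗ g₂)` of linear forms on `H ⊗ H`. -/
noncomputable def conv (σ τ : H ⊗[k] H →ₗ[k] k) : H ⊗[k] H →ₗ[k] k :=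
  (TensorProduct.lid k k).toLinearMap ∘ₗ TensorProduct.map σ τ ∘ₗ Coalgebra.comul

/-- The map `h ⊗ g ↦ σ(h₁ ⊗ g₁) h₂ g₂`. -/
noncomputable def leftTwist (σ : H ⊗[k] H →ₗ[k] k) : H ⊗[k] H →ₗ[k] H :=
  (TensorProduct.lid k H).toLinearMap ∘ₗ TensorProduct.map σ (LinearMap.mul' k H) ∘ₗ
    Coalgebra.comul

/-- `σ` is a normalized Sweedler cocycle on `H` with convolution inverse `τ`. -/
structure IsCocycle (σ τ : H ⊗[k] H →ₗ[k] k) : Prop where
  conv_inv : conv k H σ τ = Coalgebra.counit
  inv_conv : conv k H τ σ = Coalgebra.counit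
  cocycle : ∀ h g l : H, σ (leftTwist k H σ (h ⊗ₜ g) ⊗ₜ l) = σ (h ⊗ₜ leftTwist k H σ (g ⊗ₜ l))
  apply_one : ∀ h : H, σ (h ⊗ₜ 1) = Coalgebra.counit (R := k) h
  one_apply : ∀ h : H, σ (1 ⊗ₜ h) = Coalgebra.counit (R := k) h

/-- The multiplication `h ⊗ g ↦ σ(h₁ ⊗ g₁) h₂ g₂ τ(h₃ ⊗ g₃)` of the Doi deformation `H_σ`, where
`τ` is the convolution inverse of `σ`. -/
noncomputable def doiMul (σ τ : H ⊗[k] H →ₗ[k] k) : H ⊗[k] H →ₗ[k] H :=
  (TensorProduct.rid k H).toLinearMap ∘ₗ TensorProduct.map (leftTwist k H σ) τ ∘ₗ Coalgebra.comul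

end cocycle

section matched

variable (k : Type u) [Field k]

/-- The bilinear multiplication `m` and the element `e` make the coalgebra `B` a Hopf algebra. -/
def IsHopfMul (B : Type*) [AddCommGroup B] [Module k B] [Coalgebra k B]
    (m : B →ₗ[k] B →ₗ[k] B) (e : B) : Prop :=
  (∀ x y z, m (m x y) z = m x (m y z)) ∧ (∀ x, m e x = x) ∧ (∀ x, m x e = x) ∧
  (∀ x y, Coalgebra.comul (R := k) (m x y) = TensorProduct.map (TensorProduct.lift m)
    (TensorProduct.lift m) (TensorProduct.tensorTensorTensorComm k B B B B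
      (Coalgebra.comul (R := k) x ⊗ₜ Coalgebra.comul (R := k) y))) ∧
  (∀ x y, Coalgebra.counit (R := k) (m x y) =
    Coalgebra.counit (R := k) x * Coalgebra.counit (R := k) y) ∧
  Coalgebra.comul (R := k) e = e ⊗ₜ e ∧ Coalgebra.counit (R := k) e = 1 ∧
  ∃ S : B →ₗ[k] B, ∀ x,
    TensorProduct.lift m (TensorProduct.map S LinearMap.id (Coalgebra.comul (R := k) x)) =
      Coalgebra.counit (R := k) x • e ∧
    TensorProduct.lift m (TensorProduct.map LinearMap.id S (Coalgebra.comul (R := k) x)) =
      Coalgebra.counit (R := k) x • e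

variable (A : Type w) (H : Type v) [Ring A] [HopfAlgebra k A] [Ring H] [HopfAlgebra k H]

/-- A matched pair of Hopf algebras `(A, H, ◁, ▷)`. -/
structure MatchedPair where
  /-- `h ⊗ a ↦ h ◁ a` -/
  right : H ⊗[k] A →ₗc[k] H
  /-- `h ⊗ a ↦ h ▷ a` -/
  left : H ⊗[k] A →ₗc[k] A
  left_one : ∀ h : H, left (h ⊗ₜ 1) = Coalgebra.counit (R := k) h • (1 : A)
  one_left : ∀ a : A, left (1 ⊗ₜ a) = a
  one_right : ∀ a : A, right (1 ⊗ₜ a) = Coalgebra.counit (R := k) a • (1 : H)
  right_one : ∀ h : H, right (h ⊗ₜ 1) = h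
  /-- the bicrossed product is a Hopf algebra -/
  hopf : ∃ m : A ⊗[k] H →ₗ[k] A ⊗[k] H →ₗ[k] A ⊗[k] H,
    (∀ (a c : A) (h g : H), m (a ⊗ₜ h) (c ⊗ₜ g) =
      TensorProduct.map (LinearMap.mulLeft k a ∘ₗ left.toLinearMap)
        (LinearMap.mulRight k g ∘ₗ right.toLinearMap) (Coalgebra.comul (R := k) (h ⊗ₜ[k] c))) ∧
    IsHopfMul k (A ⊗[k] H) m (1 ⊗ₜ 1)

variable {k A H}

/-- The multiplication `h • g = (h ◁ r(g₁)) g₂` of the `r`-deformation `H_r`. -/
noncomputable def defMul (P : MatchedPair k A H) (r : H →ₗc[k] A) (h g : H) : H :=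
  LinearMap.mul' k H (TensorProduct.map
    (P.right.toLinearMap ∘ₗ TensorProduct.mk k H A h ∘ₗ r.toLinearMap) LinearMap.id
    (Coalgebra.comul (R := k) g))

/-- `r` is a deformation map of the matched pair. -/
structure IsDeformationMap (P : MatchedPair k A H) (r : H →ₗc[k] A) : Prop where
  unitary : r 1 = 1
  cocentral : ∀ h : H, TensorProduct.map r.toLinearMap LinearMap.id (Coalgebra.comul (R := k) h) =
    TensorProduct.map r.toLinearMap LinearMap.id
      (TensorProduct.comm k H H (Coalgebra.comul (R := k) h))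
  deform : ∀ g h : H, r (defMul P r h g) = LinearMap.mul' k A (TensorProduct.map r.toLinearMap
    (P.left.toLinearMap ∘ₗ (TensorProduct.mk k H A).flip (r g)) (Coalgebra.comul (R := k) h))

end matched

open Pool.Agent.R710.Doi

section trivial_map

variable {k : Type u} [Field k] {A : Type w} [Ring A] [HopfAlgebra k A]

theorem repr_e (p q : ZMod 4 × Bool) : (bas k).repr (e q : HH k) p = if q = p then 1 else 0 := by
  rw [← bas_apply, Module.Basis.repr_self, Finsupp.single_apply]

theorem add_one_ne : ∀ i : ZMod 4, i + 1 ≠ i := by decide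

theorem r_e_true {P : MatchedPair k A (HH k)} {r : HH k →ₗc[k] A} (hr : IsDeformationMap P r)
    (i : ZMod 4) : r (e (i, true)) = 0 ∧ r (e (i + 1, false)) = r (e (i, false)) := by
  have h := hr.cocentral (e (i, true))
  simp only [comul_e, comulB, map_add, TensorProduct.map_tmul, TensorProduct.comm_tmul,
    LinearMap.id_apply] at h
  have hne := add_one_ne i
  constructor
  · have h1 := congrArg (fun z => TensorProduct.rid k A
      (TensorProduct.map LinearMap.id ((bas k).coord (i, false)) z)) h
    simpa [repr_e, hne] using h1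
  · have h1 := congrArg (fun z => TensorProduct.rid k A
      (TensorProduct.map LinearMap.id ((bas k).coord (i, true)) z)) h
    simpa [repr_e, hne] using h1

theorem r_eq {P : MatchedPair k A (HH k)} {r : HH k →ₗc[k] A} (hr : IsDeformationMap P r)
    (x : HH k) : r x = Coalgebra.counit (R := k) x • (1 : A) := by
  have h0 : r (e (0, false)) = 1 := hr.unitary
  have h1 : r (e (1, false)) = 1 := by
    have := (r_e_true hr 0).2
    rw [zero_add] at this
    rw [this, h0]
  have h2 : r (e (2, false)) = 1 := by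
    have := (r_e_true hr 1).2
    rw [h1] at this
    exact this
  have h3 : r (e (3, false)) = 1 := by
    have := (r_e_true hr 2).2
    rw [h2] at this
    exact this
  induction x using HH.induction with
  | hadd x y hx hy => rw [map_add, map_add, add_smul, hx, hy]
  | hsmul c x hx => rw [map_smul, map_smul, smul_assoc, hx]
  | he p =>
    obtain ⟨i, s⟩ := p
    rw [counit_e]
    cases s
    · rw [counitB, one_smul]
      fin_cases i
      · exact h0
      · exact h1
      · exact h2
      · exact h3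
    · rw [counitB, zero_smul]
      exact (r_e_true hr i).1

theorem defMul_eq {P : MatchedPair k A (HH k)} {r : HH k →ₗc[k] A} (hr : IsDeformationMap P r)
    (h g : HH k) : defMul P r h g = h * g := by
  have h1 : P.right.toLinearMap ∘ₗ TensorProduct.mk k (HH k) A h ∘ₗ r.toLinearMap =
      LinearMap.toSpanSingleton k (HH k) h ∘ₗ (Coalgebra.counit : HH k →ₗ[k] k) := by
    ext x
    have : r.toLinearMap x = Coalgebra.counit (R := k) x • (1 : A) := r_eq hr x
    simp only [LinearMap.comp_apply, this, map_smul, TensorProduct.mk_apply,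
      LinearMap.toSpanSingleton_apply]
    congr 1
    exact P.right_one h
  rw [defMul, h1]
  have h2 : TensorProduct.map (LinearMap.toSpanSingleton k (HH k) h ∘ₗ
      (Coalgebra.counit : HH k →ₗ[k] k))
      (LinearMap.id : HH k →ₗ[k] HH k) = TensorProduct.map (LinearMap.toSpanSingleton k (HH k) h)
      LinearMap.id ∘ₗ (Coalgebra.counit (R := k)).rTensor (HH k) := by
    ext x y
    simp
  rw [h2, LinearMap.comp_apply, Coalgebra.rTensor_counit_comul]
  simp

end trivial_map

section cocycle_example

variable {k : Type u} [Field k]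

/-- the cocycle -/
noncomputable def sig (t : k) : HH k ⊗[k] HH k →ₗ[k] k :=
  Coalgebra.counit ∘ₗ TensorProduct.lift (mulT t)

theorem sig_tmul (t : k) (x y : HH k) :
    sig t (x ⊗ₜ y) = Coalgebra.counit (R := k) (mulT t x y) := rfl

theorem comul_tmul_e (p q : ZMod 4 × Bool) :
    Coalgebra.comul (R := k) (e p ⊗ₜ[k] e q : HH k ⊗[k] HH k) =
      TensorProduct.tensorTensorTensorComm k (HH k) (HH k) (HH k) (HH k) (comulB p ⊗ₜ comulB q) := by
  rw [← comul_e, ← comul_e]
  rfl

theorem lin_ext {M : Type*} [AddCommGroup M] [Module k M] {f g : HH k ⊗[k] HH k →ₗ[k] M}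
    (h : ∀ p q, f (e p ⊗ₜ e q) = g (e p ⊗ₜ e q)) : f = g := by
  refine TensorProduct.ext ?_
  refine (bas k).ext fun p => (bas k).ext fun q => ?_
  exact h p q

theorem conv_sig (t : k) : conv k (HH k) (sig t) (sig (-t)) = Coalgebra.counit := by
  refine lin_ext fun p q => ?_
  obtain ⟨i, s⟩ := p
  obtain ⟨j, s'⟩ := q
  have h1 : Coalgebra.counit (R := k) ((e (i, s) : HH k) ⊗ₜ[k] (e (j, s') : HH k)) =
    counitB (i, s) * counitB (j, s') := by
    rw [← counit_e, ← counit_e, mul_comm]
    simp
  rw [h1, conv]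
  simp only [LinearMap.comp_apply, comul_tmul_e]
  cases s <;> cases s' <;>
    simp [comulB, TensorProduct.add_tmul, TensorProduct.tmul_add, sig_tmul, mulB, counit_e,
      counitB, sg_add, sg_one]

theorem leftTwist_sig (t : k) (x y : HH k) :
    leftTwist k (HH k) (sig t) (x ⊗ₜ y) = mulT t x y := by
  have : leftTwist k (HH k) (sig t) = TensorProduct.lift (mulT t) := by
    refine lin_ext fun p q => ?_
    obtain ⟨i, s⟩ := p
    obtain ⟨j, s'⟩ := q
    rw [leftTwist]
    simp only [LinearMap.comp_apply, comul_tmul_e]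
    cases s <;> cases s' <;>
      simp [comulB, TensorProduct.add_tmul, TensorProduct.tmul_add, sig_tmul, mulB, counit_e,
        counitB, sg_add, sg_one, e_mul_e]
  rw [this]
  rfl

theorem isCocycle : IsCocycle k (HH k) (sig 1) (sig (-1)) where
  conv_inv := conv_sig 1
  inv_conv := by
    have := conv_sig (-1 : k)
    rwa [neg_neg] at this
  cocycle h g l := by
    rw [leftTwist_sig, leftTwist_sig, sig_tmul, sig_tmul, mulT_assoc]
  apply_one h := by
    rw [sig_tmul, one_def, mulT_one]
  one_apply h := by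
    rw [sig_tmul, one_def, one_mulT]

theorem doiMul_e (i j : ZMod 4) (s s' : Bool) :
    doiMul k (HH k) (sig 1) (sig (-1)) (e (i, s) ⊗ₜ e (j, s')) =
      mulB 0 (i, s) (j, s') + if s && s' then
        (sg j : k) • (e (i + j, false) - e (i + j + 2, false)) else 0 := by
  have h2 : i + 1 + (j + 1) = i + j + 2 := by ring
  rw [doiMul]
  simp only [LinearMap.comp_apply, comul_tmul_e]
  cases s <;> cases s' <;>
    simp [comulB, TensorProduct.add_tmul, TensorProduct.tmul_add, sig_tmul, mulB, counit_e,
      counitB, sg_add, sg_one, leftTwist_sig, h2, sub_eq_add_neg]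

/-- The span of the basis vectors `g ^ i x`. -/
noncomputable def N : Submodule k (HH k) := Submodule.span k (Set.range fun i : ZMod 4 => e (i, true))

theorem comm_mem_N (x y : HH k) : x * y - y * x ∈ N (k := k) := by
  induction x using HH.induction with
  | hadd x x' hx hx' =>
    have : (x + x') * y - y * (x + x') = (x * y - y * x) + (x' * y - y * x') := by noncomm_ring
    rw [this]
    exact Submodule.add_mem _ hx hx'
  | hsmul c x hx =>
    rw [smul_mul_assoc, mul_smul_comm, ← smul_sub]
    exact Submodule.smul_mem _ _ hx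
  | he p =>
    induction y using HH.induction with
    | hadd x x' hx hx' =>
      have : e p * (x + x') - (x + x') * e p = (e p * x - x * e p) + (e p * x' - x' * e p) := by
        noncomm_ring
      rw [this]
      exact Submodule.add_mem _ hx hx'
    | hsmul c x hx =>
      rw [smul_mul_assoc, mul_smul_comm, ← smul_sub]
      exact Submodule.smul_mem _ _ hx
    | he q =>
      obtain ⟨i, s⟩ := p
      obtain ⟨j, s'⟩ := q
      have hm : ∀ l : ZMod 4, (e (l, true) : HH k) ∈ N (k := k) := fun l =>
        Submodule.subset_span ⟨l, rfl⟩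
      rw [e_mul_e, e_mul_e]
      cases s <;> cases s'
      · simp [mulB, add_comm j i]
      · exact Submodule.sub_mem _ (hm _) (Submodule.smul_mem _ _ (hm _))
      · exact Submodule.sub_mem _ (Submodule.smul_mem _ _ (hm _)) (hm _)
      · simp [mulB]

theorem N_mul_N {x y : HH k} (hx : x ∈ N (k := k)) (hy : y ∈ N (k := k)) : x * y = 0 := by
  induction hx using Submodule.span_induction with
  | zero => exact zero_mul _
  | add a b _ _ ha hb => rw [add_mul, ha, hb, add_zero]
  | smul c a _ ha => rw [smul_mul_assoc, ha, smul_zero]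
  | mem a ha =>
    obtain ⟨i, rfl⟩ := ha
    induction hy using Submodule.span_induction with
    | zero => exact mul_zero _
    | add a b _ _ ha hb => rw [mul_add, ha, hb, add_zero]
    | smul c a _ ha => rw [mul_smul_comm, ha, smul_zero]
    | mem a ha =>
      obtain ⟨j, rfl⟩ := ha
      simp only
      rw [e_mul_e]
      simp [mulB]

end cocycle_example

/-- There are a Hopf algebra `H` of dimension eight and a normalized Sweedler cocycle `σ` on `H`
such that the Doi deformation `H_σ` is for no matched pair `(A, H, ◁, ▷)` and no deformation map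
`r` isomorphic to `H_r` as an algebra. -/
theorem result (k : Type u) [Field k] (h2 : (2 : k) ≠ 0) :
    ∃ (H : Type u) (_ : Ring H) (_ : HopfAlgebra k H) (σ τ : H ⊗[k] H →ₗ[k] k),
      Module.finrank k H = 8 ∧ IsCocycle k H σ τ ∧
      ∀ (A : Type w) [Ring A] [HopfAlgebra k A] (P : MatchedPair k A H) (r : H →ₗc[k] A),
        IsDeformationMap P r →
        ¬ ∃ f : H ≃ₗ[k] H, ∀ h g : H,
          f (doiMul k H σ τ (h ⊗ₜ g)) = defMul P r (f h) (f g) := by
  refine ⟨HH k, inferInstance, inferInstance, sig 1, sig (-1), ?_, isCocycle, ?_⟩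
  · rw [Module.finrank_eq_card_basis (bas k)]
    decide
  · rintro A _ _ P r hr ⟨f, hf⟩
    simp only [defMul_eq hr] at hf
    have hc : doiMul k (HH k) (sig 1) (sig (-1)) (e (0, true) ⊗ₜ e (1, false)) -
        doiMul k (HH k) (sig 1) (sig (-1)) (e (1, false) ⊗ₜ e (0, true)) =
        (-2 : k) • e (1, true) := by
      rw [doiMul_e, doiMul_e]
      simp [mulB, sg_one]
      module
    have h3 : f ((-2 : k) • e (1, true)) ∈ N (k := k) := by
      rw [← hc, map_sub, hf, hf]
      exact comm_mem_N _ _
    have h4 : f (e (1, true)) ∈ N (k := k) := by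
      have : (e (1, true) : HH k) = (-2 : k)⁻¹ • ((-2 : k) • e (1, true)) := by
        rw [smul_smul, inv_mul_cancel₀ (neg_ne_zero.2 h2), one_smul]
      rw [this, map_smul]
      exact Submodule.smul_mem _ _ h3
    have h5 : doiMul k (HH k) (sig 1) (sig (-1)) (e (1, true) ⊗ₜ e (1, true)) = 0 := by
      apply f.injective
      rw [hf, map_zero]
      exact N_mul_N h4 h4
    rw [doiMul_e] at h5
    have h6 := congrArg (fun z => (bas k).repr z (2, false)) h5
    have h7 : (1 : ZMod 4) + 1 = 2 := by decide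
    have h8 : (2 : ZMod 4) + 2 = 0 := by decide
    have h9 : (0 : ZMod 4) ≠ 2 := by decide
    simp [mulB, sg_one, h7, h8, h9, repr_e] at h6

end Pool.Agent.Results.MP_16410b_al.NotDeformation
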